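import Pool.Agent.K7.H66.TD.Base

set_option autoImplicit false

namespace Pool.Agent.K7.H90.TD

open Finset Pool.Agent.K7.H66.TD

theorem rr_testBit (k x1 x2 : ℕ) (h1 : x1 < 2 ^ k) (h2 : x2 < 2) :
    rr (k + 1) (x1 + 2 ^ k * x2) = if x2 = 1 then 3 * rr k x1 + 2 ^ k else rr k x1 := by
  rw [rr_append k 1 x1 x2 h1]
  interval_cases x2
  · simp [rr, ones]
  · have e1 : ones 1 1 = 1 := rfl
    have e2 : rr 1 1 = 1 := rfl
    rw [e1, e2, if_pos rfl]; ring

theorem sum_sqrt_succ (k : ℕ) :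
    ∑ x ∈ range (2 ^ (k + 1)), Real.sqrt (rr (k + 1) x)
      = ∑ x ∈ range (2 ^ k), (Real.sqrt (rr k x) + Real.sqrt (3 * rr k x + 2 ^ k)) := by
  rw [sum_split k 1]
  rw [pow_one, Finset.sum_range_succ, Finset.sum_range_one, ← Finset.sum_add_distrib]
  apply Finset.sum_congr rfl
  intro x hx
  rw [Finset.mem_range] at hx
  rw [rr_testBit k x 0 hx (by norm_num), rr_testBit k x 1 hx (by norm_num)]
  simp

theorem sum_sqrt_le (k : ℕ) :
    ∑ x ∈ range (2 ^ k), Real.sqrt (rr k x) ≤ 11 * 2 ^ k * Real.sqrt (2 ^ k) := by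
  induction k with
  | zero => simp [rr]
  | succ k ih =>
    rw [sum_sqrt_succ]
    have h1 : ∀ x ∈ range (2 ^ k), (Real.sqrt (rr k x) + Real.sqrt (3 * rr k x + 2 ^ k))
        ≤ (1 + Real.sqrt 3) * Real.sqrt (rr k x) + Real.sqrt (2 ^ k) := by
      intro x _
      have h2 : Real.sqrt (3 * rr k x + 2 ^ k) ≤ Real.sqrt (3 * rr k x) + Real.sqrt (2 ^ k) := by
        apply Real.sqrt_le_iff.2
        constructor
        · positivity
        · have e1 := Real.sq_sqrt (show (0:ℝ) ≤ 3 * rr k x by positivity)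
          have e2 := Real.sq_sqrt (show (0:ℝ) ≤ 2 ^ k by positivity)
          nlinarith [Real.sqrt_nonneg (3 * (rr k x : ℝ)), Real.sqrt_nonneg ((2:ℝ) ^ k),
            mul_nonneg (Real.sqrt_nonneg (3 * (rr k x : ℝ))) (Real.sqrt_nonneg ((2:ℝ) ^ k))]
      rw [Real.sqrt_mul (by norm_num)] at h2
      linarith
    refine (Finset.sum_le_sum h1).trans ?_
    rw [Finset.sum_add_distrib, ← Finset.mul_sum, Finset.sum_const, Finset.card_range, nsmul_eq_mul]
    push_cast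
    have h3 : Real.sqrt 3 ≤ 1.7321 := by
      rw [show (1.7321:ℝ) = Real.sqrt (1.7321 ^ 2) by rw [Real.sqrt_sq (by norm_num)]]
      exact Real.sqrt_le_sqrt (by norm_num)
    have h4 : 1.4142 ≤ Real.sqrt 2 := by
      rw [show (1.4142:ℝ) = Real.sqrt (1.4142 ^ 2) by rw [Real.sqrt_sq (by norm_num)]]
      exact Real.sqrt_le_sqrt (by norm_num)
    have h5 : Real.sqrt (2 ^ (k + 1)) = Real.sqrt 2 * Real.sqrt (2 ^ k) := by
      rw [pow_succ, mul_comm, Real.sqrt_mul (by norm_num)]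
    rw [h5]
    have h6 : 0 ≤ (2:ℝ) ^ k * Real.sqrt (2 ^ k) := by positivity
    have h7 : (1 + Real.sqrt 3) * ∑ i ∈ range (2 ^ k), Real.sqrt (rr k i)
        ≤ 2.7321 * (11 * 2 ^ k * Real.sqrt (2 ^ k)) := by
      apply mul_le_mul _ ih (Finset.sum_nonneg fun i _ => Real.sqrt_nonneg _) (by norm_num)
      linarith
    have h8 : (1.4142 : ℝ) * (2 ^ k * Real.sqrt (2 ^ k)) ≤ Real.sqrt 2 * (2 ^ k * Real.sqrt (2 ^ k)) :=
      mul_le_mul_of_nonneg_right h4 h6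
    calc (1 + Real.sqrt 3) * ∑ i ∈ range (2 ^ k), Real.sqrt (rr k i) + 2 ^ k * Real.sqrt (2 ^ k)
        ≤ 2.7321 * (11 * 2 ^ k * Real.sqrt (2 ^ k)) + 2 ^ k * Real.sqrt (2 ^ k) := by linarith
      _ = 31.0531 * (2 ^ k * Real.sqrt (2 ^ k)) := by ring
      _ ≤ 22 * (1.4142 * (2 ^ k * Real.sqrt (2 ^ k))) := by nlinarith
      _ ≤ 22 * (Real.sqrt 2 * (2 ^ k * Real.sqrt (2 ^ k))) := by linarith
      _ = 11 * 2 ^ (k + 1) * (Real.sqrt 2 * Real.sqrt (2 ^ k)) := by ring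

theorem stG : StG := by
  intro k y hy
  have h0 : (0:ℝ) < Real.sqrt (2 ^ k) := Real.sqrt_pos.2 (by positivity)
  have h1 : (((range (2 ^ k)).filter (fun x => y * 2 ^ k ≤ (rr k x : ℝ))).card : ℝ) * (Real.sqrt y * Real.sqrt (2 ^ k))
      ≤ ∑ x ∈ range (2 ^ k), Real.sqrt (rr k x) := by
    rw [← nsmul_eq_mul, ← Finset.sum_const]
    refine (Finset.sum_le_sum (g := fun x => Real.sqrt (rr k x)) ?_).trans
      (Finset.sum_le_sum_of_subset_of_nonneg (Finset.filter_subset _ _) fun i _ _ => Real.sqrt_nonneg _)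
    intro x hx
    rw [Finset.mem_filter] at hx
    rw [← Real.sqrt_mul hy.le]
    exact Real.sqrt_le_sqrt hx.2
  have h2 := h1.trans (sum_sqrt_le k)
  rw [← mul_assoc] at h2
  exact le_of_mul_le_mul_right h2 h0

end Pool.Agent.K7.H90.TD
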