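import Pool.Agent.K7.H66.TD.Base

set_option autoImplicit false

namespace Pool.Agent.K7.H90.TD

open Finset Pool.Agent.K7.H66.TD

open scoped ComplexConjugate

/-- Fourier coefficient. -/
noncomputable def ft (h : ℕ) (F : ZMod (3 ^ h) → ℂ) (a : ZMod (3 ^ h)) : ℂ := ∑ Y, F Y * ee h (-(a * Y))

theorem conj_ee (h : ℕ) (a : ZMod (3 ^ h)) : conj (ee h a) = ee h (-a) := by
  have h1 : ee h a * ee h (-a) = 1 := by rw [← ee_add, add_neg_cancel, ee_zero]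
  have h2 : ee h a * conj (ee h a) = 1 := by
    rw [Complex.mul_conj, Complex.normSq_eq_norm_sq, norm_ee]; simp
  have h3 : ee h a ≠ 0 := by
    intro h4; rw [h4, zero_mul] at h1; exact zero_ne_one h1
  exact mul_left_cancel₀ h3 (h2.trans h1.symm)

theorem sum_ee (h : ℕ) (b : ZMod (3 ^ h)) : ∑ a, ee h (a * b) = if b = 0 then (3 ^ h : ℂ) else 0 := by
  have := AddChar.sum_mulShift b (ZMod.isPrimitive_stdAddChar (3 ^ h))
  simp only [ee]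
  rw [this, ZMod.card]
  split_ifs <;> simp

theorem parseval (h : ℕ) (F : ZMod (3 ^ h) → ℂ) :
    ∑ a, ‖ft h F a‖ ^ 2 = 3 ^ h * ∑ Y, ‖F Y‖ ^ 2 := by
  have h1 : ∀ a, ((‖ft h F a‖ ^ 2 : ℝ) : ℂ) = ∑ Y, ∑ Z, F Y * conj (F Z) * ee h (a * (Z - Y)) := by
    intro a
    rw [← Complex.normSq_eq_norm_sq, ← Complex.mul_conj, ft, map_sum, Finset.sum_mul_sum]
    apply Finset.sum_congr rfl
    intro Y _
    apply Finset.sum_congr rfl
    intro Z _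
    rw [map_mul, conj_ee, neg_neg, show a * (Z - Y) = -(a * Y) + a * Z by ring, ee_add]
    ring
  have h2 : ((∑ a, ‖ft h F a‖ ^ 2 : ℝ) : ℂ) = ((3 ^ h * ∑ Y, ‖F Y‖ ^ 2 : ℝ) : ℂ) := by
    rw [Complex.ofReal_sum, Finset.sum_congr rfl (fun a _ => h1 a), Finset.sum_comm]
    push_cast
    rw [Finset.mul_sum]
    apply Finset.sum_congr rfl
    intro Y _
    rw [Finset.sum_comm]
    simp only [← Finset.mul_sum, sum_ee, sub_eq_zero]
    rw [Finset.sum_eq_single Y]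
    · simp only [if_true]
      rw [Complex.mul_conj, Complex.normSq_eq_norm_sq]
      push_cast
      ring
    · intro Z _ hZ
      rw [if_neg hZ, mul_zero]
    · intro hh; exact absurd (Finset.mem_univ _) hh
  exact_mod_cast h2

theorem stL : StL := by
  intro h k1 k2 j1 s ρ φ X M hφ hM ha hX
  -- the shift function
  set c : ℕ → ZMod (3 ^ h) := fun x1 => 3 ^ s * cw h k1 ρ x1 * h2 h ^ k2 with hc
  set Ψ : ZMod (3 ^ h) → ℂ := fun Y => ∑ x1 ∈ Wd k1 j1, φ (c x1 + Y) with hΨ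
  have hft : ∀ a, ft h Ψ a = ft h φ a * ∑ x1 ∈ Wd k1 j1, ee h (a * c x1) := by
    intro a
    rw [ft, ft, Finset.mul_sum]
    simp only [hΨ, Finset.sum_mul]
    rw [Finset.sum_comm]
    apply Finset.sum_congr rfl
    intro x1 _
    rw [← Equiv.sum_comp (Equiv.addLeft (c x1)) (fun Y => φ Y * ee h (-(a * Y)) * ee h (a * c x1))]
    apply Finset.sum_congr rfl
    intro Y _
    simp only [Equiv.coe_addLeft]
    rw [mul_assoc, ← ee_add]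
    congr 2
    ring
  have hAmp : ∀ a, ‖∑ x1 ∈ Wd k1 j1, ee h (a * c x1)‖ = ‖Amp h k1 j1 (3 ^ s * a * h2 h ^ k2)‖ := by
    intro a
    have h1 : ∑ x1 ∈ Wd k1 j1, ee h (a * c x1)
        = ee h (a * 3 ^ s * h2 h ^ k2 * 3 ^ j1 * ρ * h2 h ^ k1) * Amp h k1 j1 (3 ^ s * a * h2 h ^ k2) := by
      rw [Amp, Finset.mul_sum]
      apply Finset.sum_congr rfl
      intro x1 hx1
      rw [mem_Wd] at hx1
      rw [← ee_add]
      congr 1
      simp only [hc, cw, hx1.2]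
      ring
    rw [h1, norm_mul, norm_ee, one_mul]
  have hbound : ∀ a, ‖ft h Ψ a‖ ^ 2 ≤ M ^ 2 * ‖ft h φ a‖ ^ 2 := by
    intro a
    rw [hft, norm_mul, hAmp]
    by_cases h0 : ft h φ a = 0
    · rw [h0]; simp
    · have := ha a h0
      rw [mul_pow, mul_comm]
      apply mul_le_mul_of_nonneg_right _ (by positivity)
      exact pow_le_pow_left₀ (norm_nonneg _) this 2
  have hN : (0:ℝ) < 3 ^ h := by positivity
  have hsum : ∑ Y, ‖Ψ Y‖ ^ 2 ≤ M ^ 2 * 3 ^ h := by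
    have h1 := parseval h Ψ
    have h2 := parseval h φ
    have h3 : ∑ a, ‖ft h Ψ a‖ ^ 2 ≤ M ^ 2 * ∑ a, ‖ft h φ a‖ ^ 2 := by
      rw [Finset.mul_sum]; exact Finset.sum_le_sum fun a _ => hbound a
    have h4 : ∑ Y, ‖φ Y‖ ^ 2 ≤ 3 ^ h := by
      calc ∑ Y, ‖φ Y‖ ^ 2 ≤ ∑ _Y : ZMod (3 ^ h), (1:ℝ) := by
            apply Finset.sum_le_sum
            intro Y _
            have := hφ Y
            nlinarith [norm_nonneg (φ Y)]
        _ = 3 ^ h := by simp [ZMod.card]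
    rw [h1, h2] at h3
    have h5 : (3:ℝ) ^ h * ∑ Y, ‖Ψ Y‖ ^ 2 ≤ 3 ^ h * (M ^ 2 * 3 ^ h) := by
      calc (3:ℝ) ^ h * ∑ Y, ‖Ψ Y‖ ^ 2 ≤ M ^ 2 * (3 ^ h * ∑ Y, ‖φ Y‖ ^ 2) := h3
        _ ≤ M ^ 2 * (3 ^ h * 3 ^ h) := by gcongr
        _ = 3 ^ h * (M ^ 2 * 3 ^ h) := by ring
    exact le_of_mul_le_mul_left h5 hN
  -- injectivity
  have hinj : Set.InjOn (fun x : ℕ => (rr k2 x : ZMod (3 ^ h)) * h2 h ^ k2) X := by
    intro x hx y hy hxy
    apply hX hx hy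
    have := two_pow_h2 h k2
    simp only at hxy ⊢
    calc (rr k2 x : ZMod (3 ^ h)) = (rr k2 x : ZMod (3 ^ h)) * h2 h ^ k2 * 2 ^ k2 := by
          rw [mul_assoc, mul_comm (h2 h ^ k2), this, mul_one]
      _ = (rr k2 y : ZMod (3 ^ h)) * h2 h ^ k2 * 2 ^ k2 := by rw [hxy]
      _ = rr k2 y := by rw [mul_assoc, mul_comm (h2 h ^ k2), this, mul_one]
  have hX2 : ∑ x ∈ X, ‖Ψ ((rr k2 x : ZMod (3 ^ h)) * h2 h ^ k2)‖ ^ 2 ≤ M ^ 2 * 3 ^ h := by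
    refine le_trans ?_ hsum
    rw [← Finset.sum_image (f := fun Y => ‖Ψ Y‖ ^ 2) (g := fun x : ℕ => (rr k2 x : ZMod (3 ^ h)) * h2 h ^ k2) hinj]
    exact Finset.sum_le_sum_of_subset_of_nonneg (Finset.subset_univ _) fun i _ _ => by positivity
  have hrew : ∀ x ∈ X, ∑ x1 ∈ Wd k1 j1, φ ((3 ^ s * cw h k1 ρ x1 + (rr k2 x : ZMod (3 ^ h))) * h2 h ^ k2)
      = Ψ ((rr k2 x : ZMod (3 ^ h)) * h2 h ^ k2) := by
    intro x _
    simp only [hΨ, hc]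
    apply Finset.sum_congr rfl
    intro x1 _
    rw [add_mul]
  rw [Finset.sum_congr rfl hrew]
  refine (norm_sum_le _ _).trans ?_
  have hcs := sq_sum_le_card_mul_sum_sq (s := X) (f := fun x => ‖Ψ ((rr k2 x : ZMod (3 ^ h)) * h2 h ^ k2)‖)
  have h6 : (∑ x ∈ X, ‖Ψ ((rr k2 x : ZMod (3 ^ h)) * h2 h ^ k2)‖) ^ 2 ≤ (Real.sqrt (X.card * 3 ^ h) * M) ^ 2 := by
    rw [mul_pow, Real.sq_sqrt (by positivity)]
    calc _ ≤ (X.card : ℝ) * ∑ x ∈ X, ‖Ψ ((rr k2 x : ZMod (3 ^ h)) * h2 h ^ k2)‖ ^ 2 := hcs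
      _ ≤ (X.card : ℝ) * (M ^ 2 * 3 ^ h) := by gcongr
      _ = _ := by ring
  exact abs_le_of_sq_le_sq' h6 (by positivity) |>.2

end Pool.Agent.K7.H90.TD
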